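import Pool.Agent.Helper72.FX.StK

set_option autoImplicit false

/-!
Project FX (MP_3bffab_ag), module HOM: homotopy invariance of additive functions.
-/

open Polynomial Pool.Agent.Helper72.FX

namespace Pool.Agent.Helper81.FX

section aux

variable {A : Type} [CommRing A]

/-- `A[X] / I[X]` is `(A/I)[X]` -/
theorem hom_equiv (I : Ideal A) :
    Nonempty (PolynomialModule A (A ⧸ I) ≃ₗ[A[X]] (A[X] ⧸ I.map (C : A →+* A[X]))) := by
  let φ : A[X] →ₗ[A[X]] PolynomialModule A (A ⧸ I) :=
    LinearMap.toSpanSingleton A[X] (PolynomialModule A (A ⧸ I))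
      (PolynomialModule.single A 0 (1 : A ⧸ I))
  have hφ : ∀ (a : A[X]) (n : ℕ), (φ a).coeff n = Ideal.Quotient.mk I (a.coeff n) := by
    intro a n
    change ((a • PolynomialModule.single A 0 (1 : A ⧸ I)).coeff n) = _
    rw [PolynomialModule.smul_single_apply]
    simp only [Nat.zero_le, if_true, Nat.sub_zero]
    rw [Algebra.smul_def, mul_one]
    rfl
  have hsurj : Function.Surjective φ := by
    intro g
    induction g using PolynomialModule.induction_linear with
    | zero => exact ⟨0, map_zero _⟩
    | add x y hx hy =>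
      obtain ⟨a, rfl⟩ := hx
      obtain ⟨b, rfl⟩ := hy
      exact ⟨a + b, map_add _ _ _⟩
    | single n m =>
      obtain ⟨b, rfl⟩ := Ideal.Quotient.mk_surjective m
      refine ⟨monomial n b, ?_⟩
      change (monomial n b : A[X]) • PolynomialModule.single A 0 (1 : A ⧸ I) = _
      rw [PolynomialModule.monomial_smul_single, Nat.add_zero, Algebra.smul_def, mul_one]
      rfl
  have hker : LinearMap.ker φ = I.map (C : A →+* A[X]) := by
    ext a
    rw [LinearMap.mem_ker, Ideal.mem_map_C_iff]
    constructor
    · intro h n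
      have := hφ a n
      rw [h] at this
      exact Ideal.Quotient.eq_zero_iff_mem.1 this.symm
    · intro h
      have h2 : ∀ n, (φ a).coeff n = 0 := fun n => by
        rw [hφ a n]
        exact Ideal.Quotient.eq_zero_iff_mem.2 (h n)
      have h3 : (φ a).coeff = 0 := Finsupp.ext h2
      have h4 : (φ a).coeff = (0 : PolynomialModule A (A ⧸ I)).coeff := h3
      exact PolynomialModule.coeff_injective h4
  exact ⟨((Submodule.quotEquivOfEq _ _ hker).symm.trans
    (LinearMap.quotKerEquivOfSurjective φ hsurj)).symm⟩

end aux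

/-- modules killed by a power of `c` -/
theorem hom_filter {A : Type} [CommRing A] [IsNoetherianRing A] (D : Ideal A) (c : A)
    {Λ : Type} [AddCommGroup Λ] (χ : AF A (kil D) Λ)
    (h0 : ∀ (N : Type) [AddCommGroup N] [Module A N], Module.Finite A N → kil D N →
      (∀ y : N, c • y = 0) → χ.f N = 0) :
    ∀ (k : ℕ) (N : Type) [AddCommGroup N] [Module A N], Module.Finite A N → kil D N →
      (∀ y : N, c ^ k • y = 0) → χ.f N = 0 := by
  intro k
  induction k with
  | zero =>
    intro N _ _ _ _ h
    have : Subsingleton N := ⟨fun x y => by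
      have hx := h x
      have hy := h y
      rw [pow_zero, one_smul] at hx hy
      rw [hx, hy]⟩
    exact AF.of_subsingleton χ (gd_kil D) N
  | succ k ih =>
    intro N _ _ hf hk h
    have hS := AF.quot χ (LinearMap.range (LinearMap.lsmul A N c)) hf hk
    have h1 : χ.f (LinearMap.range (LinearMap.lsmul A N c)) = 0 := by
      refine ih _ inferInstance ((gd_kil D).inj _ _ (Submodule.subtype _)
        (Submodule.injective_subtype _) hk) ?_
      rintro ⟨y, z, rfl⟩
      apply Subtype.ext
      change c ^ k • (c • z) = 0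
      rw [smul_smul, ← pow_succ]
      exact h z
    have h2 : χ.f (N ⧸ LinearMap.range (LinearMap.lsmul A N c)) = 0 := by
      refine h0 _ inferInstance ((gd_kil D).surj _ _ (Submodule.mkQ _)
        (Submodule.mkQ_surjective _) hk) ?_
      intro y
      obtain ⟨z, rfl⟩ := Submodule.mkQ_surjective _ y
      rw [← map_smul]
      exact (Submodule.Quotient.mk_eq_zero _).2 ⟨z, rfl⟩
    rw [hS, h1, h2, add_zero]

/-- pseudo-division -/
theorem hom_pseudo {A : Type} [CommRing A] (I : Ideal A) (p : Ideal A[X])
    (f : A[X]) (hfp : f ∈ p) (hd : 1 ≤ f.natDegree)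
    (hmin : ∀ g ∈ p, g.natDegree < f.natDegree → g ∈ I.map (C : A →+* A[X])) :
    ∀ (n : ℕ) (g : A[X]), g ∈ p → g.natDegree ≤ n →
      ∃ m : ℕ, C f.leadingCoeff ^ m * g ∈ Ideal.span {f} ⊔ I.map (C : A →+* A[X]) := by
  intro n
  induction n with
  | zero =>
    intro g hg hn
    refine ⟨0, ?_⟩
    rw [pow_zero, one_mul]
    exact Ideal.mem_sup_right (hmin g hg (by omega))
  | succ n ih =>
    intro g hg hn
    by_cases hlt : g.natDegree < f.natDegree
    · refine ⟨0, ?_⟩
      rw [pow_zero, one_mul]
      exact Ideal.mem_sup_right (hmin g hg hlt)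
    · push Not at hlt
      set k := g.natDegree - f.natDegree with hk
      set g1 := C f.leadingCoeff * g - C g.leadingCoeff * X ^ k * f with hg1
      have hg1p : g1 ∈ p := p.sub_mem (p.mul_mem_left _ hg) (p.mul_mem_left _ hfp)
      have hle : g1.natDegree ≤ g.natDegree := by
        refine (natDegree_sub_le _ _).trans (max_le ?_ ?_)
        · exact natDegree_C_mul_le _ _
        · rw [mul_assoc]
          refine (natDegree_C_mul_le _ _).trans ?_
          refine natDegree_mul_le.trans ?_
          have := natDegree_X_pow_le (R := A) k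
          omega
      have hcoef : g1.coeff g.natDegree = 0 := by
        rw [hg1, coeff_sub, coeff_C_mul, mul_assoc, coeff_C_mul]
        have h3 : (X ^ k * f).coeff g.natDegree = f.leadingCoeff := by
          have h4 : g.natDegree = f.natDegree + k := by omega
          rw [h4, coeff_X_pow_mul]
          rfl
        rw [h3]
        change f.leadingCoeff * g.leadingCoeff - _ = 0
        ring
      have hlt2 : g1.natDegree < g.natDegree := by
        refine lt_of_le_of_ne hle ?_
        intro he
        rw [← he] at hcoef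
        have h5 : g1 = 0 := leadingCoeff_eq_zero.1 hcoef
        rw [h5, natDegree_zero] at he
        omega
      obtain ⟨m, hm⟩ := ih g1 hg1p (by omega)
      refine ⟨m + 1, ?_⟩
      have h6 : C f.leadingCoeff ^ (m + 1) * g =
          C f.leadingCoeff ^ m * g1 + (C f.leadingCoeff ^ m * (C g.leadingCoeff * X ^ k)) * f := by
        rw [hg1]
        ring
      rw [h6]
      refine Ideal.add_mem _ hm (Ideal.mem_sup_left ?_)
      exact Ideal.mul_mem_left _ _ (Ideal.mem_span_singleton_self f)

/-- the element of minimal degree -/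
theorem hom_min {A : Type} [CommRing A] (I : Ideal A) (p : Ideal A[X])
    (hq : p.comap (C : A →+* A[X]) = I) (hne : p ≠ I.map (C : A →+* A[X])) :
    ∃ f ∈ p, 1 ≤ f.natDegree ∧ f.leadingCoeff ∉ I ∧ f ∉ I.map (C : A →+* A[X]) ∧
      ∀ g ∈ p, g.natDegree < f.natDegree → g ∈ I.map (C : A →+* A[X]) := by
  classical
  have hle : I.map (C : A →+* A[X]) ≤ p := by
    rw [Ideal.map_le_iff_le_comap, hq]
  have hex : ∃ n : ℕ, ∃ f ∈ p, f ∉ I.map (C : A →+* A[X]) ∧ f.natDegree = n := by
    by_contra hcon
    push Not at hcon
    apply hne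
    refine le_antisymm (fun f hf => ?_) hle
    by_contra hf2
    exact hcon _ f hf hf2 rfl
  obtain ⟨f, hfp, hfD, hfn⟩ := Nat.find_spec hex
  have hmin : ∀ g ∈ p, g.natDegree < f.natDegree → g ∈ I.map (C : A →+* A[X]) := by
    intro g hg hlt
    by_contra hgD
    rw [hfn] at hlt
    exact Nat.find_min hex hlt ⟨g, hg, hgD, rfl⟩
  have hlc : f.leadingCoeff ∉ I := by
    intro hmem
    have hmon : monomial f.natDegree f.leadingCoeff ∈ I.map (C : A →+* A[X]) := by
      rw [Ideal.mem_map_C_iff]
      intro i
      rw [coeff_monomial]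
      split_ifs
      · exact hmem
      · exact I.zero_mem
    have he : f.eraseLead + monomial f.natDegree f.leadingCoeff = f := eraseLead_add_monomial_natDegree_leadingCoeff f
    have hep : f.eraseLead ∈ p := by
      have : f.eraseLead = f - monomial f.natDegree f.leadingCoeff := by
        rw [eq_sub_iff_add_eq]
        exact he
      rw [this]
      exact p.sub_mem hfp (hle hmon)
    have heD : f.eraseLead ∉ I.map (C : A →+* A[X]) := by
      intro h
      apply hfD
      rw [← he]
      exact Ideal.add_mem _ h hmon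
    by_cases hd : f.natDegree = 0
    · apply hfD
      rw [eq_C_of_natDegree_eq_zero hd]
      refine Ideal.mem_map_of_mem _ ?_
      have : f.coeff 0 = f.leadingCoeff := by
        rw [leadingCoeff, hd]
      rw [this]
      exact hmem
    · have hlt : f.eraseLead.natDegree < f.natDegree := by
        have := eraseLead_natDegree_le f
        omega
      exact heD (hmin _ hep hlt)
  refine ⟨f, hfp, ?_, hlc, hfD, hmin⟩
  by_contra hd
  have hd0 : f.natDegree = 0 := by omega
  apply hfD
  have h1 := eq_C_of_natDegree_eq_zero hd0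
  rw [h1]
  refine Ideal.mem_map_of_mem _ ?_
  rw [← hq, Ideal.mem_comap, ← h1]
  exact hfp

theorem hHOM : StHOM := by
  intro _ A _ _ I
  induction I using WellFoundedGT.induction with
  | _ I IH =>
  intro Λ _ χ hχ N _ _ hN hkN
  -- the statement for larger ideals
  have big : ∀ J : Ideal A, I < J → ∀ (N : Type) [AddCommGroup N] [Module A[X] N],
      Module.Finite A[X] N → kil (J.map C) N → χ.f N = 0 := by
    intro J hJ N _ _ hf hk
    have hm : I.map (C : A →+* A[X]) ≤ J.map C := Ideal.map_mono hJ.le
    exact IH J hJ Λ (χ.mono (fun M _ _ h => kil_mono hm h))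
      (fun M _ _ hfM hkM => hχ M hfM (kil_mono hJ.le hkM)) N hf hk
  refine IsNoetherianRing.induction_on_isQuotientEquivQuotientPrime (A := A[X]) hN
    (motive := fun N _ _ _ => kil (I.map C) N → χ.f N = 0) ?_ ?_ ?_ hkN
  · intro N _ _ _ _ _
    exact AF.of_subsingleton χ (gd_kil _) N
  · intro N _ _ _ p e hk
    have hDp : I.map (C : A →+* A[X]) ≤ p.1 := by
      intro x hx
      have h1 := hk x hx (e.symm (Ideal.Quotient.mk p.1 1))
      rw [← map_smul] at h1
      have h2 : x • (Ideal.Quotient.mk p.1 1 : A[X] ⧸ p.1) = 0 := by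
        have := congrArg e h1
        simpa using this
      have h3 : (Ideal.Quotient.mk p.1 (x * 1) : A[X] ⧸ p.1) = 0 := h2
      rw [mul_one] at h3
      exact Ideal.Quotient.eq_zero_iff_mem.1 h3
    have hkp : kil (I.map C) (A[X] ⧸ p.1) := kil_mono hDp (kil_quot p.1)
    rw [AF.equiv χ (gd_kil _) e inferInstance hkp]
    have hIq : I ≤ p.1.comap (C : A →+* A[X]) := Ideal.map_le_iff_le_comap.1 hDp
    rcases hIq.lt_or_eq with hlt | heq
    · -- case (a)
      exact big _ hlt _ inferInstance (kil_mono Ideal.map_comap_le (kil_quot p.1))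
    · by_cases hpD : p.1 = I.map (C : A →+* A[X])
      · -- case (b)
        obtain ⟨e2⟩ := hom_equiv I
        have h1 : χ.f (PolynomialModule A (A ⧸ I)) = 0 := hχ _ inferInstance (kil_quot I)
        rw [AF.equiv χ (gd_kil _) e2 inferInstance (kil_quot _)] at h1
        rw [hpD]
        exact h1
      · -- case (c)
        have hIp : I.IsPrime := by
          rw [heq]
          exact Ideal.comap_isPrime _ _
        have hDprime : (I.map (C : A →+* A[X])).IsPrime := Ideal.isPrime_map_C_of_isPrime
        obtain ⟨f, hfp, hd, hlc, hfD, hmin⟩ := hom_min I p.1 heq.symm hpD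
        set J0 : Ideal A[X] := Ideal.span {f} ⊔ I.map (C : A →+* A[X]) with hJ0
        have hJ0p : J0 ≤ p.1 := sup_le ((Ideal.span_singleton_le_iff_mem _).2 hfp) hDp
        have hkJ : kil (I.map (C : A →+* A[X])) (A[X] ⧸ J0) := kil_mono le_sup_right (kil_quot J0)
        -- the quotient by `J0`
        have hq0 : χ.f (A[X] ⧸ J0) = 0 := by
          have hex := χ.exact' (A[X] ⧸ I.map (C : A →+* A[X])) (A[X] ⧸ I.map (C : A →+* A[X])) (A[X] ⧸ J0)
            (LinearMap.lsmul A[X] (A[X] ⧸ I.map (C : A →+* A[X])) f) (Submodule.factor (le_sup_right : I.map (C : A →+* A[X]) ≤ J0))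
            inferInstance (kil_quot _) ?_ ?_ (Submodule.factor_surjective _)
          · exact (left_eq_add.1 hex)
          · rw [← LinearMap.ker_eq_bot, LinearMap.ker_eq_bot']
            intro y hy
            obtain ⟨a, rfl⟩ := Ideal.Quotient.mk_surjective y
            have hy' : (Ideal.Quotient.mk (I.map (C : A →+* A[X])) (f * a) : A[X] ⧸ I.map (C : A →+* A[X])) = 0 := hy
            have hm := Ideal.Quotient.eq_zero_iff_mem.1 hy'
            exact Ideal.Quotient.eq_zero_iff_mem.2 ((hDprime.mem_or_mem hm).resolve_left hfD)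
          · intro y
            obtain ⟨a, rfl⟩ := Ideal.Quotient.mk_surjective y
            constructor
            · intro h
              have h' : (Ideal.Quotient.mk J0 a : A[X] ⧸ J0) = 0 := h
              have hm := Ideal.Quotient.eq_zero_iff_mem.1 h'
              obtain ⟨u, hu, v, hv, huv⟩ := Submodule.mem_sup.1 hm
              obtain ⟨w, rfl⟩ := Ideal.mem_span_singleton'.1 hu
              refine ⟨Ideal.Quotient.mk (I.map (C : A →+* A[X])) w, ?_⟩
              change (Ideal.Quotient.mk (I.map (C : A →+* A[X])) (f * w) : A[X] ⧸ I.map (C : A →+* A[X])) = Ideal.Quotient.mk (I.map (C : A →+* A[X])) a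
              rw [← huv, map_add, Ideal.Quotient.eq_zero_iff_mem.2 hv, add_zero, mul_comm]
            · rintro ⟨z, hz⟩
              obtain ⟨w, rfl⟩ := Ideal.Quotient.mk_surjective z
              rw [← hz]
              change (Ideal.Quotient.mk J0 (f * w) : A[X] ⧸ J0) = 0
              refine Ideal.Quotient.eq_zero_iff_mem.2 (Ideal.mem_sup_left ?_)
              exact Ideal.mul_mem_right _ _ (Ideal.mem_span_singleton_self f)
        -- a power of the leading coefficient
        have hpow : ∃ M : ℕ, ∀ g ∈ p.1, C f.leadingCoeff ^ M * g ∈ J0 := by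
          obtain ⟨s, hs⟩ := (isNoetherianRing_iff_ideal_fg A[X]).1 inferInstance p.1
          have hch : ∀ g : A[X], g ∈ p.1 → ∃ m : ℕ, C f.leadingCoeff ^ m * g ∈ J0 :=
            fun g hg => hom_pseudo I p.1 f hfp hd hmin g.natDegree g hg le_rfl
          choose! m hm using hch
          refine ⟨s.sup m, ?_⟩
          have hle : p.1 ≤ Submodule.comap (LinearMap.lsmul A[X] A[X] (C f.leadingCoeff ^ (s.sup m))) J0 := by
            rw [← hs, Submodule.span_le]
            intro g hg
            change C f.leadingCoeff ^ (s.sup m) * g ∈ J0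
            have h1 : m g ≤ s.sup m := Finset.le_sup hg
            have h2 : g ∈ p.1 := by
              rw [← hs]
              exact Submodule.subset_span hg
            have h3 : C f.leadingCoeff ^ (s.sup m) * g =
                C f.leadingCoeff ^ (s.sup m - m g) * (C f.leadingCoeff ^ (m g) * g) := by
              rw [← mul_assoc, ← pow_add]
              congr 2
              omega
            rw [h3]
            exact J0.mul_mem_left _ (hm g h2)
          exact fun g hg => hle hg
        obtain ⟨M, hM⟩ := hpow
        -- modules killed by `I[X]` and `c`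
        have hIJ : I < I ⊔ Ideal.span {f.leadingCoeff} := by
          refine lt_of_le_of_ne le_sup_left ?_
          intro h
          apply hlc
          rw [h]
          exact Ideal.mem_sup_right (Ideal.mem_span_singleton_self _)
        have h0 : ∀ (N : Type) [AddCommGroup N] [Module A[X] N], Module.Finite A[X] N → kil (I.map (C : A →+* A[X])) N →
            (∀ y : N, (C f.leadingCoeff : A[X]) • y = 0) → χ.f N = 0 := by
          intro N _ _ hfN hkN hcN
          refine big _ hIJ N hfN ?_
          rw [Ideal.map_sup, Ideal.map_span, Set.image_singleton]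
          exact kil_sup hkN (kil_span hcN)
        -- the exact sequence `p / J0 → A[X] / J0 → A[X] / p`
        have hS := AF.quot χ (Submodule.map (Submodule.mkQ J0) p.1) inferInstance hkJ
        rw [hq0] at hS
        have hS1 : χ.f (Submodule.map (Submodule.mkQ J0) p.1) = 0 := by
          refine hom_filter _ (C f.leadingCoeff) χ h0 M _ inferInstance
            ((gd_kil (I.map (C : A →+* A[X]))).inj _ _ (Submodule.subtype _) (Submodule.injective_subtype _) hkJ) ?_
          rintro ⟨y, g, hg, rfl⟩
          apply Subtype.ext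
          change (Ideal.Quotient.mk J0 (C f.leadingCoeff ^ M * g) : A[X] ⧸ J0) = 0
          exact Ideal.Quotient.eq_zero_iff_mem.2 (hM g hg)
        rw [hS1, zero_add] at hS
        rw [AF.equiv χ (gd_kil _) (Submodule.quotientQuotientEquivQuotient J0 p.1 hJ0p).symm
          inferInstance ((gd_kil (I.map (C : A →+* A[X]))).surj _ _ (Submodule.mkQ _) (Submodule.mkQ_surjective _) hkJ)]
        exact hS.symm
  · intro N₁ _ _ _ N₂ _ _ _ N₃ _ _ _ i g hi hg hex h1 h3 hk
    rw [χ.exact' N₁ N₂ N₃ i g inferInstance hk hi hex hg,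
      h1 ((gd_kil _).inj _ _ i hi hk), h3 ((gd_kil _).surj _ _ g hg hk), add_zero]

end Pool.Agent.Helper81.FX
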