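import Pool.Agent.Helper71.FX.St

/-!
Project FX (MP_d629b1_an, helper71), module LF: the frequency functions are square integrable.
-/

open MeasureTheory Filter Topology
open scoped FourierTransform RealInnerProductSpace Matrix ComplexConjugate ENNReal

noncomputable section

namespace Pool.Agent.Helper81.FX

open Wav Pool.Agent.Helper71.FX

private theorem ee_norm (x : ℝ) : ‖ee x‖ = 1 := by
  have h : ee x = Complex.exp (((2 * Real.pi * x : ℝ) : ℂ) * Complex.I) := by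
    unfold ee; congr 1; push_cast; ring
  rw [h, Complex.norm_exp_ofReal_mul_I]

private theorem ee_cont : Continuous ee := by
  unfold ee
  fun_prop

/-- the functions `faff A Φ i k` are square integrable if `Φ` is -/
private theorem faff_memLp {n : ℕ} {A : Matrix (Fin n) (Fin n) ℝ} (hA : A.det ≠ 0) {Φ : E n → ℂ}
    (h : MemLp Φ 2 (volume : Measure (E n))) (i : ℤ) (k : Fin n → ℤ) :
    MemLp (faff A Φ i k) 2 (volume : Measure (E n)) := by
  have hu : IsUnit A.det := isUnit_iff_ne_zero.2 hA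
  have hj : (A ^ (-i))ᵀ.det ≠ 0 := by
    rw [Matrix.det_transpose]; exact (hu.det_zpow (-i)).ne_zero
  have h2 : MemLp Φ 2 (Measure.map (act (A ^ (-i))ᵀ) (volume : Measure (E n))) := by
    rw [map_act hj]
    exact h.smul_measure ENNReal.ofReal_ne_top
  have h3 : MemLp (fun ξ : E n => Φ (act (A ^ (-i))ᵀ ξ)) 2 (volume : Measure (E n)) :=
    (act_emb hj).memLp_map_measure_iff.1 h2
  have hm : Continuous (fun ξ : E n => ee (-⟪act (A ^ (-i)) (ivec k), ξ⟫)) :=
    ee_cont.comp (by fun_prop)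
  have h4 : MemLp (fun ξ : E n => ee (-⟪act (A ^ (-i)) (ivec k), ξ⟫) *
      Φ (act (A ^ (-i))ᵀ ξ)) 2 (volume : Measure (E n)) := by
    refine h3.of_le (hm.aestronglyMeasurable.mul h3.1) (Eventually.of_forall fun ξ => ?_)
    rw [norm_mul, ee_norm, one_mul]
  have h5 := h4.const_mul (((|A.det| ^ (-(i : ℝ) / 2) : ℝ) : ℂ))
  refine (memLp_congr_ae (Eventually.of_forall fun ξ => ?_)).1 h5
  show _ = faff A Φ i k ξ
  unfold faff
  ring

theorem pLF : StLF := by
  intro n L N A ψ hG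
  have hA : A.det ≠ 0 := expansive_det hG.exp
  have hdec : MemLp (fun η : E n => (1 + ‖η‖) ^ (-(N - 1))) 2 (volume : Measure (E n)) := by
    have hc : Continuous (fun η : E n => (1 + ‖η‖) ^ (-(N - 1))) := by
      refine Continuous.rpow_const (by fun_prop) (fun η => Or.inl ?_)
      have := norm_nonneg η
      positivity
    rw [memLp_two_iff_integrable_sq hc.aestronglyMeasurable]
    have h1 : Integrable (fun η : E n => (1 + ‖η‖) ^ (-(2 * N - 2))) :=
      integrable_one_add_norm (by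
        have := hG.big'
        simp only [finrank_euclideanSpace, Fintype.card_fin]
        linarith)
    refine h1.congr (Eventually.of_forall fun η => ?_)
    have h0 : (0 : ℝ) ≤ 1 + ‖η‖ := by positivity
    show (1 + ‖η‖) ^ (-(2 * N - 2)) = ((1 + ‖η‖) ^ (-(N - 1))) ^ 2
    rw [← Real.rpow_natCast, ← Real.rpow_mul h0]
    congr 1
    push_cast
    ring
  have hcont : ∀ l, Continuous (𝓕 (ψ l)) := fun l =>
    N2Aux.fourier_cont ((hG.loc l).integrable hG.big)
  have hb := fun l => (hG.loc l).fourier_bound hG.big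
  have hone : ∀ l, MemLp (𝓕 (ψ l)) 2 (volume : Measure (E n)) := fun l =>
    N2Aux.fourier_memLp ((hG.loc l).integrable hG.big) (hG.loc l).memLp
  have htwo : ∀ (l : Fin L) (w : E n),
      MemLp (fun η : E n => ((⟪w, η⟫ : ℝ) : ℂ) * 𝓕 (ψ l) η) 2 (volume : Measure (E n)) := by
    intro l w
    obtain ⟨C, hC, hbd⟩ := hb l
    have hm : Continuous (fun η : E n => ((⟪w, η⟫ : ℝ) : ℂ) * 𝓕 (ψ l) η) := by
      have h1 : Continuous (fun η : E n => ((⟪w, η⟫ : ℝ) : ℂ)) :=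
        Complex.continuous_ofReal.comp (by fun_prop)
      exact h1.mul (hcont l)
    refine (hdec.const_mul (‖w‖ * C)).of_le hm.aestronglyMeasurable
      (Eventually.of_forall fun η => ?_)
    have h0 : (0 : ℝ) < 1 + ‖η‖ := by positivity
    have h1 : (0 : ℝ) ≤ (1 + ‖η‖) ^ (-(N - 1)) := by positivity
    rw [norm_mul, Complex.norm_real]
    rw [Real.norm_of_nonneg (by positivity : (0 : ℝ) ≤ ‖w‖ * C * (1 + ‖η‖) ^ (-(N - 1)))]
    have h2 : ‖⟪w, η⟫‖ ≤ ‖w‖ * ‖η‖ := norm_inner_le_norm w η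
    have h3 : (1 + ‖η‖) ^ (-(N - 1)) = (1 + ‖η‖) * (1 + ‖η‖) ^ (-N) := by
      rw [show -(N - 1) = 1 + (-N) by ring, Real.rpow_add h0, Real.rpow_one]
    have h4 : (0 : ℝ) ≤ (1 + ‖η‖) ^ (-N) := by positivity
    calc ‖⟪w, η⟫‖ * ‖𝓕 (ψ l) η‖ ≤ (‖w‖ * ‖η‖) * (C * (1 + ‖η‖) ^ (-N)) :=
          mul_le_mul h2 (hbd η) (norm_nonneg _) (by positivity)
      _ ≤ (‖w‖ * (1 + ‖η‖)) * (C * (1 + ‖η‖) ^ (-N)) := by
          gcongr
          linarith
      _ = ‖w‖ * C * (1 + ‖η‖) ^ (-(N - 1)) := by rw [h3]; ring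
  refine ⟨fun p w => ?_, fun p => faff_memLp hA (hone p.1) p.2.1 p.2.2⟩
  have hu : IsUnit A.det := isUnit_iff_ne_zero.2 hA
  have h6 := faff_memLp hA (htwo p.1 (act (A ^ p.2.1) w)) p.2.1 p.2.2
  refine (memLp_congr_ae (Eventually.of_forall fun ξ => ?_)).1 h6
  show faff A (fun η : E n => ((⟪act (A ^ p.2.1) w, η⟫ : ℝ) : ℂ) * 𝓕 (ψ p.1) η) p.2.1 p.2.2 ξ =
    ((⟪w, ξ⟫ : ℝ) : ℂ) * faff A (𝓕 (ψ p.1)) p.2.1 p.2.2 ξ
  have h7 : ⟪act (A ^ p.2.1) w, act (A ^ (-p.2.1))ᵀ ξ⟫ = ⟪w, ξ⟫ := by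
    rw [← inner_act, ← act_mul, Matrix.zpow_neg_mul_zpow_self _ hu, act_one]
  unfold faff
  simp only [h7]
  ring

end Pool.Agent.Helper81.FX
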