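import Pool.Agent.Helper72.FX.StC1

set_option autoImplicit false

/-!
Project FX (MP_3bffab_ag), module CD: the second pencil.
-/

open Polynomial Pool.Agent.Helper72.FX Pool.Agent.Helper21.FX

namespace Pool.Agent.Helper81.FX

section gen

variable {A : Type} [CommRing A]

theorem cd_ckEquiv {M N : Type} [AddCommGroup M] [Module A M] [AddCommGroup N] [Module A N]
    (x : A) (e : M ≃ₗ[A] N) : Nonempty (Ck x M ≃ₗ[A] Ck x N) := by
  refine ⟨Submodule.Quotient.equiv _ _ e ?_⟩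
  ext y
  constructor
  · rintro ⟨z, ⟨w, rfl⟩, rfl⟩
    exact ⟨e w, (map_smul e x w).symm⟩
  · rintro ⟨w, rfl⟩
    refine ⟨x • e.symm w, ⟨e.symm w, rfl⟩, ?_⟩
    change e (x • e.symm w) = x • w
    rw [map_smul, LinearEquiv.apply_symm_apply]

theorem cd_knSub {M N : Type} [AddCommGroup M] [Module A M] [AddCommGroup N] [Module A N]
    (x : A) (e : M ≃ₗ[A] N) (h : Subsingleton (Kn x N)) : Subsingleton (Kn x M) := by
  have key : ∀ u : Kn x M, u = 0 := by
    rintro ⟨u, hu⟩
    have h1 : x • u = 0 := hu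
    have h2 : e u ∈ LinearMap.ker (LinearMap.lsmul A N x) := by
      change x • e u = 0
      rw [← map_smul, h1, map_zero]
    have h3 : (⟨e u, h2⟩ : Kn x N) = 0 := Subsingleton.elim _ _
    have h4 : e u = 0 := congrArg Subtype.val h3
    apply Subtype.ext
    exact (LinearEquiv.map_eq_zero_iff e).1 h4
  exact ⟨fun u v => (key u).trans (key v).symm⟩

/-- cokernel and kernel of the pencil on `M[X]` -/
theorem cd_class (hPMX : StPMX) [IsNoetherianRing A] (I : Ideal A) (E s : A)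
    (M : Type) [AddCommGroup M] [Module A M] (hf : Module.Finite A M) (hk : kil I M) :
    (Module.Finite A[X] (Ck (pel E s) (PolynomialModule A M)) ∧
      kil (pid I E s) (Ck (pel E s) (PolynomialModule A M))) ∧
    (Module.Finite A[X] (Kn (pel E s) (PolynomialModule A M)) ∧
      kil (pid I E s) (Kn (pel E s) (PolynomialModule A M))) := by
  obtain ⟨-, -, -, h4, h5, -⟩ := hPMX A M M M LinearMap.id LinearMap.id
  have hfin : Module.Finite A[X] (PolynomialModule A M) := h4 hf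
  have hkil : kil (I.map C) (PolynomialModule A M) := h5 I hk
  refine ⟨⟨inferInstance, ?_⟩, ⟨inferInstance, ?_⟩⟩
  · refine kil_sup ((gd_kil _).surj _ _ (Submodule.mkQ _) (Submodule.mkQ_surjective _) hkil)
      (kil_span ?_)
    intro y
    obtain ⟨z, rfl⟩ := Submodule.mkQ_surjective _ y
    rw [← map_smul]
    exact (Submodule.Quotient.mk_eq_zero _).2 ⟨z, rfl⟩
  · refine kil_sup ((gd_kil _).inj _ _ (Submodule.subtype _) (Submodule.injective_subtype _) hkil)
      (kil_span ?_)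
    rintro ⟨y, hy⟩
    exact Subtype.ext hy

/-- `E X - s` is a nonzerodivisor modulo the prime `I[X]` -/
theorem cd_reg (I : Ideal A) (hI : I.IsPrime) (E s : A) (hE : E ∉ I) :
    ∀ y : A[X], pel E s * y ∈ I.map C → y ∈ I.map C := by
  have hprime : (I.map (C : A →+* A[X])).IsPrime := Ideal.isPrime_map_C_of_isPrime
  have hnot : (pel E s : A[X]) ∉ I.map (C : A →+* A[X]) := by
    intro hmem
    have h4 := Ideal.mem_map_C_iff.1 hmem 1
    apply hE
    have h5 : (pel E s : A[X]).coeff 1 = E := by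
      simp [pel, coeff_C]
    rw [h5] at h4
    exact h4
  exact fun y hy => (hprime.mem_or_mem hy).resolve_left hnot

end gen

theorem cd_I8 : I8 ≤ Ideal.span {(C s7 : B8), C a7, C b7} := by
  unfold I8 pid
  rw [Ideal.map_bot, bot_sup_eq, Ideal.span_singleton_le_iff_mem]
  have h1 : (C s7 : B8) ∈ Ideal.span {(C s7 : B8), C a7, C b7} :=
    Ideal.subset_span (by simp)
  have h2 : (C a7 : B8) ∈ Ideal.span {(C s7 : B8), C a7, C b7} :=
    Ideal.subset_span (by simp)
  have h3 : (C b7 : B8) ∈ Ideal.span {(C s7 : B8), C a7, C b7} :=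
    Ideal.subset_span (by simp)
  have h4 : (pel s7 q7 : B8) = (X + C m7) * C s7 + C a7 * C a7 - (2 + C t7 * C b7) * C b7 := by
    simp only [pel, q7, nu7, nu, C_sub, C_add, C_mul, C_pow, C_ofNat]
    ring
  rw [h4]
  exact Ideal.sub_mem _ (Ideal.add_mem _ (Ideal.mul_mem_left _ _ h1) (Ideal.mul_mem_left _ _ h2))
    (Ideal.mul_mem_left _ _ h3)

theorem hCD : StCD := by
  intro hPEN hCC hCI hF1 hPMX hPMQ hCKQ
  obtain ⟨χA, hA1, hA2, hA3⟩ := hCC
  obtain ⟨hI, hD⟩ := hF1
  obtain ⟨χG, h1, h2⟩ := hPEN B8 I8 (C D7) h8 (ZMod 2) χA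
    { f := fun _ _ _ => 0
      exact' := by
        intros
        simp } (by
    intro N _ _ hf hk hy
    rw [hCI χA hA1 N hf hk hy, sub_zero])
  refine ⟨χG, h1, ?_, ?_⟩
  · have h3 := h2 (B8 ⧸ I8) inferInstance (kil_quot I8)
    rw [hA2] at h3
    obtain ⟨e⟩ := hPMQ B8 I8
    obtain ⟨⟨e2⟩, hs⟩ := hCKQ B9 (I8.map C) (pel (C D7) h8)
    have hsub := hs (cd_reg I8 hI (C D7) h8 hD)
    have hsub2 := cd_knSub (pel (C D7) h8) e hsub
    have h6 : χG.f (Kn (pel (C D7) h8) (PolynomialModule B8 (B8 ⧸ I8))) = 0 :=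
      AF.of_subsingleton χG (gd_kil _) _
    rw [h6, sub_zero] at h3
    obtain ⟨e3⟩ := cd_ckEquiv (pel (C D7) h8) e
    have h7 := AF.equiv χG (gd_kil _) (e3.trans e2) inferInstance (kil_quot _)
    rw [h3] at h7
    exact h7.symm
  · have hk0 : kil I8 (B8 ⧸ Ideal.span {(C s7 : B8), C a7, C b7}) :=
      kil_mono cd_I8 (kil_quot _)
    have h3 := h2 (B8 ⧸ Ideal.span {(C s7 : B8), C a7, C b7}) inferInstance hk0
    rw [hA3] at h3
    obtain ⟨⟨c1, c2⟩, ⟨k1, k2⟩⟩ := cd_class hPMX I8 (C D7) h8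
      (B8 ⧸ Ideal.span {(C s7 : B8), C a7, C b7}) inferInstance hk0
    by_cases hz : χG.f (Ck (pel (C D7) h8)
        (PolynomialModule B8 (B8 ⧸ Ideal.span {(C s7 : B8), C a7, C b7}))) = 0
    · refine ⟨_, inferInstance, inferInstance, k1, k2, ?_⟩
      intro hz2
      rw [hz, hz2, sub_zero] at h3
      exact absurd h3 (by decide)
    · exact ⟨_, inferInstance, inferInstance, c1, c2, hz⟩

end Pool.Agent.Helper81.FX
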